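import Mathlib
import Pool.Agent.MP_b39683_an.Defs
import Pool.Agent.MP_b39683_an.Proof

open MeasureTheory
open scoped ENNReal NNReal

namespace Pool.Agent.Results.MP_b39683_an.FreeGroupCounterexample

open Pool.Agent.MP_b39683_an

/-- There is a non-amenable locally compact group `G` such that for every `1 < p < ∞` some bounded
operator on `L^p(G)` commutes with all right translations but is not regular. -/
theorem result :
    ∃ (G : Type) (_ : Group G) (_ : TopologicalSpace G) (_ : IsTopologicalGroup G)
      (_ : T2Space G) (_ : LocallyCompactSpace G) (_ : MeasurableSpace G) (_ : BorelSpace G)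
      (μ : Measure G) (_ : μ.IsHaarMeasure),
      ¬ IsAmenable μ ∧
      ∀ p : ℝ≥0∞, 1 < p → p < ∞ →
        ∃ T : (G → ℂ) → (G → ℂ), IsLpOperator μ p T ∧ CommutesRight μ p T ∧
          ¬ IsRegular μ p T := by
  letI : TopologicalSpace (FreeGroup (Fin 2)) := ⊥
  haveI : DiscreteTopology (FreeGroup (Fin 2)) := ⟨rfl⟩
  letI : MeasurableSpace (FreeGroup (Fin 2)) := ⊤
  haveI : BorelSpace (FreeGroup (Fin 2)) := ⟨(borel_eq_top_of_discrete).symm⟩
  haveI : DiscreteMeasurableSpace (FreeGroup (Fin 2)) := ⟨fun _ => trivial⟩
  haveI hleft : (Measure.count : Measure (FreeGroup (Fin 2))).IsMulLeftInvariant :=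
    ⟨fun g => (mp_bij _ (Group.mulLeft_bijective g)).map_eq⟩
  haveI : (Measure.count : Measure (FreeGroup (Fin 2))).IsHaarMeasure :=
    { lt_top_of_isCompact := by
        intro K hK
        rw [Measure.count_apply_lt_top]
        exact hK.finite_of_discrete
      map_mul_left_eq_self := hleft.map_mul_left_eq_self
      open_pos := by
        intro U _ hU
        rw [Measure.count_ne_zero_iff]
        exact hU }
  refine ⟨FreeGroup (Fin 2), inferInstance, inferInstance, inferInstance, inferInstance,
    inferInstance, inferInstance, inferInstance, Measure.count, inferInstance,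
    not_amenable, ?_⟩
  intro p hp1 hp
  haveI : Fact (1 ≤ p) := ⟨hp1.le⟩
  obtain ⟨T, hT1, hT2⟩ := exists_nonregular (p := p) hp1 hp.ne (FreeGroup.of (0 : Fin 2)) (by
    intro n m hnm
    have h := congrArg (FreeGroup.toWord) hnm
    simp only [FreeGroup.toWord_of_pow] at h
    simpa using congrArg List.length h)
  exact ⟨ofCLM T, ofCLM_isLp T, commutes_conv T hT1, fun h => hT2 (regular_conv T h)⟩

end Pool.Agent.Results.MP_b39683_an.FreeGroupCounterexample
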